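import Pool.Agent.MP_75da70_an.H65.Mob
import Pool.Agent.MP_75da70_an.H72.PMod
import Pool.Agent.MP_75da70_an.H88.Fibre
import Pool.Agent.MP_75da70_an.H7.Gen0

/-
The admissible exact sequences attached to a neighbourhood assignment of bounded order.
-/

namespace Pool.Agent.MP_75da70_an.H8

open Filter Topology Set H7

section Aux

variable {I E F : Type} [NormedAddCommGroup E] [NormedSpace ℂ E] [NormedAddCommGroup F]
  [NormedSpace ℂ F]

/-- a bounded family of operators as one operator. -/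
noncomputable def sesPi (φ : I → E →L[ℂ] F) (C : ℝ) (hC : 0 ≤ C)
    (h : ∀ i e, ‖φ i e‖ ≤ C * ‖e‖) : E →L[ℂ] Linf I F :=
  LinearMap.mkContinuous
    { toFun := fun e => Linf.mk (fun i => φ i e) _ fun i => h i e
      map_add' := fun _ _ => Linf.ext fun i => by simp
      map_smul' := fun _ _ => Linf.ext fun i => by simp } C
    fun e => Linf.norm_le (by positivity) fun i => h i e

@[simp] theorem sesPi_apply (φ : I → E →L[ℂ] F) (C : ℝ) (hC : 0 ≤ C)
    (h : ∀ i e, ‖φ i e‖ ≤ C * ‖e‖) (e : E) (i : I) : sesPi φ C hC h e i = φ i e := rfl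

open Classical in
/-- cutting off coordinates. -/
noncomputable def sesCut (p : I → Prop) : Linf I E →L[ℂ] Linf I E :=
  sesPi (fun i => if p i then lpEv i else 0) 1 zero_le_one fun i u => by
    split_ifs
    · simpa using u.norm_val_le i
    · simp

open Classical in
theorem sesCut_apply (p : I → Prop) (u : Linf I E) (i : I) :
    sesCut p u i = if p i then u i else 0 := by
  simp only [sesCut, sesPi_apply]
  split_ifs <;> rfl

omit [NormedSpace ℂ F] in
theorem ses_tendsto_iff {f : I → F} :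
    Tendsto f cofinite (𝓝 0) ↔ ∀ ε : ℝ, 0 < ε → {i | ε ≤ ‖f i‖}.Finite := by
  simp only [Metric.tendsto_nhds, eventually_cofinite, dist_zero_right, not_lt, gt_iff_lt]

theorem sesCut_tendsto (p : I → Prop) {u : Linf I E} (hu : Tendsto (fun i => u i) cofinite (𝓝 0)) :
    Tendsto (fun i => sesCut p u i) cofinite (𝓝 0) := by
  rw [ses_tendsto_iff] at hu ⊢
  refine fun ε hε => (hu ε hε).subset fun i hi => ?_
  simp only [mem_ofPred_eq, sesCut_apply] at hi ⊢
  split_ifs at hi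
  · exact hi
  · simp only [norm_zero] at hi
    linarith

variable {T : Type} {le : T → T → Prop} {B : Set T}

theorem ses_mem_Sx_zero {x : T} {c : List T} :
    c ∈ Sx le B 0 x ↔ ∃ p, c = [p] ∧ p ∈ B ∧ le p x := by
  constructor
  · rintro ⟨h1, h2, h, t, rfl, h3⟩
    obtain rfl : t = [] := by simpa using h2
    exact ⟨h, rfl, h1, h3⟩
  · rintro ⟨p, rfl, h1, h2⟩
    exact ⟨h1, rfl, p, [], rfl, h2⟩

theorem ses_So_succ (k : ℕ) (x : T) : So le B (k + 1) x = Sx le B (k + 1) x := by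
  refine subset_antisymm (fun c hc => hc.1) fun c hc => ⟨hc, ?_⟩
  rintro rfl
  simpa using hc.2.1

theorem ses_cons_mem {k : ℕ} {x y : T} {c : List T} :
    y :: c ∈ Sx le B k x ↔ (IsCh le B (y :: c) ∧ c.length = k) ∧ le y x := by
  constructor
  · rintro ⟨h1, h2, h, t, e, h3⟩
    obtain ⟨rfl, rfl⟩ := List.cons.inj e
    exact ⟨⟨h1, by simpa using h2⟩, h3⟩
  · rintro ⟨⟨h1, h2⟩, h3⟩
    exact ⟨h1, by simp [h2], y, c, rfl, h3⟩

open Classical in
theorem ses_hF_cons (y y' : T) (ζ : FL T) (c : List T) :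
    hF y ζ (y' :: c) = if y' = y ∧ c.head? ≠ some y then ζ c else 0 := by
  induction ζ using Finsupp.induction_linear with
  | zero => simp
  | add f g hf hg =>
    rw [map_add, Finsupp.add_apply, hf, hg, Finsupp.add_apply]
    split_ifs <;> simp
  | single a b =>
    simp only [hF, Finsupp.linearCombination_single, Finsupp.smul_apply, smul_eq_mul]
    by_cases h1 : a = c
    · subst h1
      by_cases h2 : a.head? = some y
      · simp [h2]
      · by_cases h3 : y' = y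
        · simp [h2, h3]
        · simp [h2, h3]
    · split_ifs <;> simp [h1]

theorem ses_retr_sub {ι : Type} [NormedAddCommGroup ι] [NormedSpace ℂ ι] {T : Thy ι} (X : Obj T)
    {S S' : Submodule ℂ X.carrier} {hc hS hc' hS'} (hle : ∀ u ∈ S', u ∈ S)
    (π : X.carrier →L[ℂ] X.carrier) (hπ : Mr X X π) (h1 : ∀ u ∈ S, π u ∈ S')
    (h2 : ∀ u ∈ S', π u = u) : Retr (X.sub S' hc' hS') (X.sub S hc hS) :=
  ⟨S'.subtypeL.codRestrict S fun u => hle _ u.2,
    (π.comp S.subtypeL).codRestrict S' fun u => h1 _ u.2, fun _ _ => rfl,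
    fun a u => Subtype.ext (hπ a u.1), fun u => Subtype.ext (h2 _ u.2)⟩

end Aux

variable {Ω : Type} [TopologicalSpace Ω] [CompactSpace Ω] [T2Space Ω]
  [TotallyDisconnectedSpace Ω]

namespace PS

variable (P : PS Ω) (B : Set Ω)

omit [T2Space Ω] [TotallyDisconnectedSpace Ω] in
theorem ses_fib_val {k : ℕ} {u : Linf (List Ω) C(Ω, ℂ)} (hu : u ∈ pmS (P.Uc B k)) (x : Ω)
    (c : List Ω) : P.fib B k x u c = u c x := by
  rw [fib_apply]
  split_ifs with h
  · rfl
  · exact ((mem_pmS.mp hu).2 c x h).symm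

omit [T2Space Ω] [TotallyDisconnectedSpace Ω] in
theorem ses_fib_supp (k : ℕ) (u : Linf (List Ω) C(Ω, ℂ)) (x : Ω) :
    P.fib B k x u ∈ Finsupp.supported ℂ ℂ (Sx P.le B k x) := by
  rw [Finsupp.mem_supported']
  intro c hc
  rw [fib_apply, if_neg hc]

omit [T2Space Ω] [TotallyDisconnectedSpace Ω] in
theorem ses_dF_fib (k : ℕ) (u : Linf (List Ω) C(Ω, ℂ)) (x : Ω) (j : List Ω) :
    dF (P.fib B k x u) j = ∑ c ∈ (P.finite_Sx B k x).toFinset, u c x * dB c j := by
  simp [fib, dF, Finsupp.finsetSum_apply]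

omit [T2Space Ω] [TotallyDisconnectedSpace Ω] in
theorem ses_mr_jK (k : ℕ) : Mr (P.ZK B k) (P.PK B k) (P.jK B k) := fun _ _ => rfl

/-- the augmentation. -/
noncomputable def sesEps : (P.PK B 0).carrier →L[ℂ] (C0 B).carrier :=
  (sesPi (fun p : Ω => (evF [p] p).comp (pmS (P.Uc B 0)).subtypeL) 1 zero_le_one fun p u => by
    rw [one_mul]
    exact ((u.1 [p]).norm_coe_le_norm p).trans (u.1.norm_val_le [p])).codRestrict (c0B B)
    fun u => mem_c0B.mpr ⟨by
      have h := (mem_pmS.mp u.2).1.comp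
        (Function.Injective.tendsto_cofinite (f := fun p : Ω => [p]) fun a b h => by simpa using h)
      rw [tendsto_zero_iff_norm_tendsto_zero] at h ⊢
      exact squeeze_zero (fun _ => norm_nonneg _) (fun p => (u.1 [p]).norm_coe_le_norm p) h,
      fun p hp => (mem_pmS.mp u.2).2 [p] p fun h => by
        obtain ⟨q, e, hq, -⟩ := ses_mem_Sx_zero.mp h
        obtain rfl : p = q := by simpa using e
        exact hp hq⟩

omit [T2Space Ω] [TotallyDisconnectedSpace Ω] in
theorem sesEps_val (u : (P.PK B 0).carrier) (p : Ω) : (P.sesEps B u).1 p = u.1 [p] p := rfl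

/-- the coordinates of the section of the augmentation. -/
noncomputable def sesS0 : List Ω → Linf Ω ℂ →L[ℂ] C(Ω, ℂ)
  | [p] => (lpEv p).smulRight (ind (P.V p))
  | _ => 0

omit [CompactSpace Ω] [T2Space Ω] [TotallyDisconnectedSpace Ω] in
theorem sesS0_cases (c : List Ω) : (∃ p, c = [p]) ∨ P.sesS0 c = 0 := by
  rcases c with _ | ⟨p, _ | ⟨q, t⟩⟩
  · exact Or.inr rfl
  · exact Or.inl ⟨p, rfl⟩
  · exact Or.inr rfl

omit [T2Space Ω] [TotallyDisconnectedSpace Ω] in
theorem norm_sesS0 (p : Ω) (a : Linf Ω ℂ) : ‖P.sesS0 [p] a‖ ≤ ‖a p‖ := by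
  show ‖a p • ind (P.V p)‖ ≤ _
  rw [norm_smul]
  exact mul_le_of_le_one_right (norm_nonneg _) (norm_ind_le _)

omit [T2Space Ω] [TotallyDisconnectedSpace Ω] in
theorem exists_sec0 : ∃ s : (C0 B).carrier →L[ℂ] (P.PK B 0).carrier,
    ∀ a p x, (s a).1 [p] x = a.1 p * ind (P.V p) x := by
  refine ⟨(sesPi (fun c => (P.sesS0 c).comp (c0B B).subtypeL) 1 zero_le_one
    fun c a => ?_).codRestrict (pmS (P.Uc B 0)) fun a => mem_pmS.mpr ⟨?_, fun c x hx => ?_⟩,
    fun a p x => rfl⟩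
  · rcases P.sesS0_cases c with ⟨p, rfl⟩ | h
    · rw [one_mul]
      exact (P.norm_sesS0 p a.1).trans (a.1.norm_val_le p)
    · simp [h]
  · refine ses_tendsto_iff.mpr fun ε hε => ((ses_tendsto_iff.mp (mem_c0B.mp a.2).1 ε hε).image
      fun p => [p]).subset fun c hc => ?_
    rcases P.sesS0_cases c with ⟨p, rfl⟩ | h
    · exact ⟨p, le_trans hc (P.norm_sesS0 p a.1), rfl⟩
    · simp only [sesPi_apply, h, mem_ofPred_eq, ContinuousLinearMap.zero_comp,
        zero_apply, norm_zero] at hc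
      linarith
  · rcases P.sesS0_cases c with ⟨p, rfl⟩ | h
    · show a.1 p * ind (P.V p) x = 0
      by_cases hp : p ∈ B
      · rw [ind_of_notMem fun h => hx (ses_mem_Sx_zero.mpr ⟨p, rfl, hp, h⟩), mul_zero]
      · rw [(mem_c0B.mp a.2).2 p hp, zero_mul]
    · simp [h]

omit [T2Space Ω] [TotallyDisconnectedSpace Ω] in
theorem ses_Zs_zero : SES (P.ZK B 0) (P.PK B 0) (C0 B) (P.jK B 0) (P.sesEps B) := by
  obtain ⟨s, hs⟩ := P.exists_sec0 B
  refine SES.of_exact (P.ses_mr_jK B 0) (fun a u => rfl) 1 (fun k => (one_mul _).ge)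
    (fun t => ⟨fun h => ⟨⟨t.1, P.mem_zS.mpr ⟨t.2, fun x => ⟨?_, ?_⟩⟩⟩, rfl⟩, ?_⟩) s fun a => ?_
  · refine (Finsupp.mem_supported' ..).mpr fun c hc => ?_
    rw [P.ses_fib_val B t.2]
    by_cases h1 : c = [x]
    · rw [h1, ← sesEps_val, h]
      rfl
    · exact (mem_pmS.mp t.2).2 c x fun h2 => hc ⟨h2, h1⟩
  · refine LinearMap.mem_ker.mpr (Finsupp.ext fun j => ?_)
    rw [ses_dF_fib]
    refine Finset.sum_eq_zero fun c hc => ?_
    obtain ⟨p, rfl, -⟩ := ses_mem_Sx_zero.mp ((P.finite_Sx B 0 x).mem_toFinset.mp hc)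
    simp [dB]
  · rintro ⟨z, rfl⟩
    refine Subtype.ext (Linf.ext fun p => ?_)
    have h := P.mem_zS.mp z.2
    rw [sesEps_val, jK_val, ← P.ses_fib_val B h.1]
    exact (Finsupp.mem_supported' ..).mp (h.2 p).1 [p] fun h => h.2 rfl
  · refine Subtype.ext (Linf.ext fun p => ?_)
    rw [sesEps_val, hs, ind_of_mem (P.rs.clopen p) (P.rs.self p), mul_one]

omit [T2Space Ω] [TotallyDisconnectedSpace Ω] in
/-- the boundary map on the module of chains. -/
theorem exists_bd (k : ℕ) : ∃ σ : (P.PK B (k + 1)).carrier →L[ℂ] (P.ZK B k).carrier,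
    Mr (P.PK B (k + 1)) (P.ZK B k) σ ∧
      ∀ u j x, (σ u).1 j x = dF (P.fib B (k + 1) x u.1) j := by
  have hcf := P.cf B (k + 1)
  have hy : ∀ c, ∃ y : (P.ZK B k).carrier, ∀ j x, y.1 j x = ind (P.Uc B (k + 1) c) x * dB c j := by
    intro c
    by_cases hc : (P.Uc B (k + 1) c).Nonempty
    · obtain ⟨x, h1, h2, h, t, rfl, -⟩ := hc
      have hm : h :: t ∈ Sx P.le B (k + 1) h := ⟨h1, h2, h, t, rfl, P.pord.refl h⟩
      obtain ⟨u, hu, -, hz⟩ := P.exists_const B k (q := h) (hcf.clopen (h :: t))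
        (fun x hx => (ses_cons_mem.mp hx).2) (dB (h :: t))
      refine ⟨⟨u, hz ?_⟩, hu⟩
      have := dF_mem_Zf P.pord (Finsupp.single_mem_supported ℂ (1 : ℂ) hm)
      simpa [dF] using this
    · exact ⟨0, fun j x => by rw [ind_of_notMem fun h => hc ⟨x, h⟩, zero_mul]; rfl⟩
  choose y hy using hy
  obtain ⟨ψ, h1, h2⟩ := PM.lift hcf (P.ZK B k) y (fun c => Subtype.ext (Linf.ext fun j =>
    ContinuousMap.ext fun x => by
      show ind (P.Uc B (k + 1) c) x * (y c).1 j x = (y c).1 j x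
      by_cases hx : x ∈ P.Uc B (k + 1) c
      · rw [ind_of_mem (hcf.clopen c) hx, one_mul]
      · rw [hy, ind_of_notMem hx, zero_mul, zero_mul]))
    ((P.N ^ (k + 1 + 1) : ℕ) * ((k + 2 : ℕ) : ℝ)) fun S θ hθ => by
      have := norm_sum_le_of_cf hcf (fun c => (y c).1)
        (fun c j x hx => by rw [hy, ind_of_notMem hx, zero_mul]) (C := ((k + 2 : ℕ) : ℝ))
        (by positivity) (fun c j x => by
          rw [hy]
          by_cases hx : x ∈ P.Uc B (k + 1) c
          · rw [ind_of_mem (hcf.clopen c) hx, one_mul, ← hx.2.1]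
            exact norm_dB_le c j
          · rw [ind_of_notMem hx, zero_mul, norm_zero]
            positivity) S θ hθ
      rwa [Submodule.coe_norm, Submodule.coe_sum]
  refine ⟨ψ, h1, fun u j x => ?_⟩
  have := PM.fibre hcf ((P.zS B k).subtypeL.comp ψ) (fun a u => congrArg Subtype.val (h1 a u)) u x
    (P.finite_Sx B (k + 1) x).toFinset (fun c hc => (P.finite_Sx B (k + 1) x).mem_toFinset.mpr hc) j
  rw [ses_dF_fib]
  refine this.trans (Finset.sum_congr rfl fun c hc => ?_)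
  show u.1 c x * (ψ (eP _ c)).1 j x = _
  rw [h2, hy, ind_of_mem (hcf.clopen c) ((P.finite_Sx B (k + 1) x).mem_toFinset.mp hc), one_mul]

open Classical in
/-- the coordinates of the section of the boundary map. -/
noncomputable def sesS1 (μ : Ω → C(Ω, ℂ) →L[ℂ] ℂ) (k : ℕ) :
    List Ω → Linf (List Ω) C(Ω, ℂ) →L[ℂ] C(Ω, ℂ)
  | [] => 0
  | y :: c => if IsCh P.le B (y :: c) ∧ c.length = k + 1 then
      ((μ y).comp (lpEv c)).smulRight (ind (P.V y)) else 0

omit [T2Space Ω] [TotallyDisconnectedSpace Ω] in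
theorem norm_sesS1 (μ : Ω → C(Ω, ℂ) →L[ℂ] ℂ) (k : ℕ) (y : Ω) (c : List Ω)
    (z : Linf (List Ω) C(Ω, ℂ)) : ‖P.sesS1 B μ k (y :: c) z‖ ≤ ‖μ y (z c)‖ := by
  simp only [sesS1]
  split_ifs
  · show ‖μ y (z c) • ind (P.V y)‖ ≤ _
    rw [norm_smul]
    exact mul_le_of_le_one_right (norm_nonneg _) (norm_ind_le _)
  · simp

theorem ses_Zs_succ (k : ℕ) : ∃ σ, SES (P.ZK B (k + 1)) (P.PK B (k + 1)) (P.ZK B k)
    (P.jK B (k + 1)) σ := by
  classical
  obtain ⟨σ, hσ, hv⟩ := P.exists_bd B k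
  obtain ⟨μ, m, C, hC, hm, hsum, hlim⟩ := P.exists_mob
  have hb : ∀ y (f : C(Ω, ℂ)), ‖μ y f‖ ≤ (|C| + 1) * ‖f‖ := fun y f =>
    (μ y).le_of_opNorm_le ((hC y).trans (by linarith [le_abs_self C])) f
  have hC0 : 0 < |C| + 1 := by positivity
  let s : (P.ZK B k).carrier →L[ℂ] (P.PK B (k + 1)).carrier :=
    (sesPi (fun c => (P.sesS1 B μ k c).comp (P.zS B k).subtypeL) (|C| + 1) hC0.le fun c z => by
      rcases c with _ | ⟨y, c⟩
      · simpa [sesS1] using mul_nonneg hC0.le (norm_nonneg z)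
      · exact (P.norm_sesS1 B μ k y c z.1).trans ((hb _ _).trans
          (mul_le_mul_of_nonneg_left (z.1.norm_val_le c) hC0.le))).codRestrict
      (pmS (P.Uc B (k + 1))) fun z => mem_pmS.mpr ⟨by
        refine ses_tendsto_iff.mpr fun ε hε => ?_
        have h1 := ses_tendsto_iff.mp (mem_pmS.mp (P.mem_zS.mp z.2).1).1 (ε / (|C| + 1))
          (by positivity)
        refine (h1.biUnion fun c _ => (ses_tendsto_iff.mp (hlim (z.1 c)) ε hε).image
          fun y => y :: c).subset fun c hc => ?_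
        rcases c with _ | ⟨y, c⟩
        · simp only [sesPi_apply, sesS1, mem_ofPred_eq, ContinuousLinearMap.zero_comp,
            zero_apply, norm_zero] at hc
          linarith
        · have h2 : ε ≤ ‖μ y (z.1 c)‖ := le_trans hc (P.norm_sesS1 B μ k y c z.1)
          refine mem_biUnion (x := c) ?_ ⟨y, h2, rfl⟩
          show ε / (|C| + 1) ≤ ‖z.1 c‖
          rw [div_le_iff₀' hC0]
          exact h2.trans (hb _ _), fun c x hx => by
        rcases c with _ | ⟨y, c⟩
        · rfl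
        · simp only [sesPi_apply, sesS1]
          split_ifs with h
          · show μ y (z.1 c) * ind (P.V y) x = 0
            rw [ind_of_notMem fun h' => hx (ses_cons_mem.mpr ⟨h, h'⟩), mul_zero]
          · rfl⟩
  refine ⟨σ, SES.of_exact (P.ses_mr_jK B (k + 1)) hσ 1 (fun k => (one_mul _).ge)
    (fun t => ⟨fun h => ⟨⟨t.1, P.mem_zS.mpr ⟨t.2, fun x => ⟨?_, ?_⟩⟩⟩, rfl⟩, ?_⟩) s fun z => ?_⟩
  · rw [ses_So_succ]
    exact P.ses_fib_supp B (k + 1) t.1 x
  · refine LinearMap.mem_ker.mpr (Finsupp.ext fun j => ?_)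
    rw [← hv, h]
    rfl
  · rintro ⟨z, rfl⟩
    refine Subtype.ext (Linf.ext fun j => ContinuousMap.ext fun x => ?_)
    rw [hv, jK_val, LinearMap.mem_ker.mp ((P.mem_zS.mp z.2).2 x).2]
    rfl
  · refine Subtype.ext (Linf.ext fun j => ContinuousMap.ext fun x => ?_)
    have hz := P.mem_zS.mp z.2
    let ζ : Ω → FL Ω := fun y => ∑ q ∈ (P.finite_below y).toFinset, m y q • P.fib B k q z.1
    have hζ : ∀ y, ζ y ∈ Zf P.le B k y := fun y => Submodule.sum_mem _ fun q hq =>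
      Submodule.smul_mem _ _ (Zf_mono P.pord ((P.finite_below y).mem_toFinset.mp hq) (hz.2 q))
    have hζv : ∀ y c, ζ y c = μ y (z.1 c) := fun y c => by
      simp only [ζ, Finsupp.finsetSum_apply, Finsupp.smul_apply, smul_eq_mul,
        P.ses_fib_val B hz.1, hm]
    have key : P.fib B (k + 1) x (s z).1 = ∑ y ∈ (P.finite_below x).toFinset, hF y (ζ y) := by
      ext c
      rw [fib_apply, Finsupp.finsetSum_apply]
      split_ifs with hc
      · obtain ⟨y, c, rfl⟩ : ∃ y c', c = y :: c' := let ⟨_, _, h, t, e, _⟩ := hc; ⟨h, t, e⟩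
        obtain ⟨h1, h2⟩ := ses_cons_mem.mp hc
        have h3 : c.head? ≠ some y := by
          rcases c with _ | ⟨y', c⟩
          · simp
          · simpa using h1.1.1.2.symm
        rw [Finset.sum_eq_single_of_mem y ((P.finite_below x).mem_toFinset.mpr h2)
          fun b _ hb => by rw [ses_hF_cons, if_neg fun h => hb h.1.symm], ses_hF_cons,
          if_pos ⟨rfl, h3⟩, hζv]
        show (P.sesS1 B μ k (y :: c) z.1) x = _
        simp only [sesS1, if_pos h1]
        show μ y (z.1 c) * ind (P.V y) x = _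
        rw [ind_of_mem (P.rs.clopen y) h2, mul_one]
      · refine (Finset.sum_eq_zero fun y hy => ?_).symm
        exact (Finsupp.mem_supported' ..).mp (hF_mem P.pord (hζ y)).1 c fun h =>
          hc (Sx_mono P.pord ((P.finite_below x).mem_toFinset.mp hy) h)
    rw [hv, key, map_sum, Finsupp.finsetSum_apply, ← hsum x (z.1 j)]
    exact Finset.sum_congr rfl fun y _ => by rw [(hF_mem P.pord (hζ y)).2, hζv]

end PS

theorem PS.ses_Zs (P : PS Ω) (B : Set Ω) (k : ℕ) :
    ∃ σ, SES (P.Zs B (k + 1)) (P.PK B k) (P.Zs B k) (P.jK B k) σ := by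
  cases k with
  | zero => exact ⟨_, P.ses_Zs_zero B⟩
  | succ k => exact P.ses_Zs_succ B k

theorem PS.ses_IK (P : PS Ω) (j : ℕ) :
    ∃ i σ, SES (P.IK j) (P.IK (j + 1)) (C0 (P.L j)) i σ := by
  classical
  have hcf := P.cf (P.L j) 0
  obtain ⟨s0, hs0⟩ := P.exists_sec0 (P.L j)
  obtain ⟨ψ, h1, h2⟩ := PM.lift hcf (LF Ω Unit) (fun c => Linf.single () (ind (P.Uc (P.L j) 0 c)))
    (fun c => Linf.ext fun u => ContinuousMap.ext fun x => by
      show ind (P.Uc (P.L j) 0 c) x * Linf.single () (ind (P.Uc (P.L j) 0 c)) () x =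
        Linf.single () (ind (P.Uc (P.L j) 0 c)) () x
      rw [Linf.single_self]
      by_cases hx : x ∈ P.Uc (P.L j) 0 c
      · rw [ind_of_mem (hcf.clopen c) hx, one_mul]
      · rw [ind_of_notMem hx, zero_mul]) _
    (norm_sum_le_of_cf hcf _ (fun c u x hx => by rw [Linf.single_self, ind_of_notMem hx])
      zero_le_one fun c u x => by
        rw [Linf.single_self]
        exact (ContinuousMap.norm_coe_le_norm _ x).trans (norm_ind_le _))
  have hψ : ∀ a x, ψ (s0 a) () x =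
      ∑ c ∈ (P.finite_Sx (P.L j) 0 x).toFinset, (s0 a).1 c x := fun a x => by
    rw [PM.fibre hcf ψ h1 (s0 a) x _ fun c hc => (P.finite_Sx (P.L j) 0 x).mem_toFinset.mpr hc]
    refine Finset.sum_congr rfl fun c hc => ?_
    rw [h2, Linf.single_self, ind_of_mem (hcf.clopen c)
      ((P.finite_Sx (P.L j) 0 x).mem_toFinset.mp hc), mul_one]
  let i : (P.IK j).carrier →L[ℂ] (P.IK (j + 1)).carrier :=
    (P.iS j).subtypeL.codRestrict (P.iS (j + 1)) fun f =>
      P.mem_iS.mpr fun x hx => P.mem_iS.mp f.2 x (by omega)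
  let e : (P.IK (j + 1)).carrier →L[ℂ] Linf Ω ℂ :=
    sesPi (fun x => (ContinuousMap.evalCLM ℂ x).comp (P.iS (j + 1)).subtypeL) 1 zero_le_one
      fun x f => by rw [one_mul]; exact f.1.norm_coe_le_norm x
  have he : ∀ f x, sesCut (· ∈ P.L j) (e f) x = if x ∈ P.L j then f.1 x else 0 := fun f x =>
    sesCut_apply _ _ _
  let σ : (P.IK (j + 1)).carrier →L[ℂ] (C0 (P.L j)).carrier :=
    ((sesCut (· ∈ P.L j)).comp e).codRestrict (c0B (P.L j)) fun f => mem_c0B.mpr ⟨by
      refine ses_tendsto_iff.mpr fun ε hε => ?_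
      refine (P.rs.finite_level (j := j) ((P.rs.struct_closed_ge j).inter
        (isClosed_le continuous_const f.1.continuous.norm)) (S := _ ∩ {x | ε ≤ ‖f.1 x‖})
        fun x hx => ?_).subset fun x hx => ?_
      · by_contra hne
        have h3 : j ≤ P.rk x := hx.1
        have h4 : ε ≤ ‖f.1 x‖ := hx.2
        rw [P.mem_iS.mp f.2 x (by omega), norm_zero] at h4
        linarith
      · simp only [mem_ofPred_eq, ContinuousLinearMap.comp_apply, he] at hx
        split_ifs at hx with h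
        · exact ⟨(show P.rk x = j from h).ge, hx⟩
        · rw [norm_zero] at hx
          linarith, fun x hx => by rw [ContinuousLinearMap.comp_apply, he, if_neg hx]⟩
  have hσ : ∀ f x, (σ f).1 x = if x ∈ P.L j then f.1 x else 0 := he
  let s : (C0 (P.L j)).carrier →L[ℂ] (P.IK (j + 1)).carrier :=
    ((lpEv ()).comp (ψ.comp s0)).codRestrict (P.iS (j + 1)) fun a => P.mem_iS.mpr fun x hx => by
      refine (hψ a x).trans (Finset.sum_eq_zero fun c hc => ?_)
      obtain ⟨p, -, hp, hle⟩ := ses_mem_Sx_zero.mp ((P.finite_Sx (P.L j) 0 x).mem_toFinset.mp hc)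
      have h3 := P.rk_le hle
      have h4 : P.rk p = j := hp
      omega
  refine ⟨i, σ, SES.of_exact (fun _ _ => rfl) (fun a f => Subtype.ext (Linf.ext fun x => ?_)) 1
    (fun k => (one_mul _).ge) (fun t => ⟨fun h => ⟨⟨t.1, P.mem_iS.mpr fun x hx => ?_⟩, rfl⟩, ?_⟩)
    s fun a => Subtype.ext (Linf.ext fun x => ?_)⟩
  · show _ = a x * (σ f).1 x
    rw [hσ, hσ]
    split_ifs
    · rfl
    · rw [mul_zero]
  · by_cases h3 : x ∈ P.L j
    · have := hσ t x
      rw [h, if_pos h3] at this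
      exact this.symm
    · exact P.mem_iS.mp t.2 x (lt_of_le_of_ne hx (Ne.symm h3))
  · rintro ⟨f, rfl⟩
    refine Subtype.ext (Linf.ext fun x => ?_)
    rw [hσ]
    split_ifs with h3
    · exact P.mem_iS.mp f.2 x (show P.rk x = j from h3).ge
    · rfl
  · rw [hσ]
    split_ifs with h3
    · refine (hψ a x).trans ((Finset.sum_eq_single_of_mem [x]
        ((P.finite_Sx (P.L j) 0 x).mem_toFinset.mpr
          (ses_mem_Sx_zero.mpr ⟨x, rfl, h3, P.pord.refl x⟩)) fun c hc hne => ?_).trans ?_)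
      · obtain ⟨p, rfl, hp, hle⟩ :=
          ses_mem_Sx_zero.mp ((P.finite_Sx (P.L j) 0 x).mem_toFinset.mp hc)
        have h4 := P.rk_lt hle fun h => hne (by rw [h])
        have h5 : P.rk p = j := hp
        have h6 : P.rk x = j := h3
        omega
      · rw [hs0, ind_of_mem (P.rs.clopen x) (P.rs.self x), mul_one]
    · exact ((mem_c0B.mp a.2).2 x h3).symm

omit [T2Space Ω] [TotallyDisconnectedSpace Ω] in
theorem ses_retr_C0 {B B' : Set Ω} (hB : B' ⊆ B) : Retr (C0 B') (C0 B) := by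
  classical
  refine ses_retr_sub (LX Ω) (fun a ha => mem_c0B.mpr ⟨(mem_c0B.mp ha).1,
    fun x hx => (mem_c0B.mp ha).2 x fun h => hx (hB h)⟩) (sesCut (· ∈ B'))
    (fun a u => Linf.ext fun x => ?_) (fun a ha => mem_c0B.mpr
      ⟨sesCut_tendsto _ (mem_c0B.mp ha).1, fun x hx => (sesCut_apply _ _ _).trans (if_neg hx)⟩)
    fun a ha => Linf.ext fun x => ?_
  · rw [lpOp_apply, sesCut_apply, sesCut_apply, lpOp_apply]
    split_ifs
    · rfl
    · rw [map_zero]
  · rw [sesCut_apply]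
    split_ifs with h
    · rfl
    · exact ((mem_c0B.mp ha).2 x h).symm

omit [T2Space Ω] [TotallyDisconnectedSpace Ω] in
theorem PS.ses_zS_mono (P : PS Ω) {B B' : Set Ω} (hB : B' ⊆ B) (k : ℕ)
    {u : Linf (List Ω) C(Ω, ℂ)} (hu : u ∈ P.zS B' k) : u ∈ P.zS B k := by
  obtain ⟨h1, h2⟩ := P.mem_zS.mp hu
  have h3 : u ∈ pmS (P.Uc B k) := mem_pmS.mpr ⟨(mem_pmS.mp h1).1, fun c x hx =>
    (mem_pmS.mp h1).2 c x fun h => hx ((mem_Sx_sub hB).mp h).1⟩
  refine P.mem_zS.mpr ⟨h3, fun x => ?_⟩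
  have : P.fib B k x u = P.fib B' k x u :=
    Finsupp.ext fun c => by rw [P.ses_fib_val B h3, P.ses_fib_val B' h1]
  have hsub : So P.le B' k x ⊆ So P.le B k x := fun c hc => ⟨((mem_Sx_sub hB).mp hc.1).1, hc.2⟩
  rw [this]
  exact ⟨Finsupp.supported_mono hsub (h2 x).1, (h2 x).2⟩

omit [T2Space Ω] [TotallyDisconnectedSpace Ω] in
theorem PS.ses_zS_cut (P : PS Ω) {B B' : Set Ω} (hB : B' ⊆ B) (k : ℕ)
    {u : Linf (List Ω) C(Ω, ℂ)} (hu : u ∈ P.zS B k) :
    sesCut (fun c : List Ω => ∃ q ∈ B', c.getLast? = some q) u ∈ P.zS B' k := by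
  classical
  obtain ⟨h1, h2⟩ := P.mem_zS.mp hu
  have h3 : sesCut (fun c : List Ω => ∃ q ∈ B', c.getLast? = some q) u ∈ pmS (P.Uc B' k) :=
    mem_pmS.mpr ⟨sesCut_tendsto _ (mem_pmS.mp h1).1, fun c x hx => by
      rw [sesCut_apply]
      split_ifs with h
      · exact (mem_pmS.mp h1).2 c x fun h' => hx ((mem_Sx_sub hB).mpr ⟨h', h⟩)
      · rfl⟩
  refine P.mem_zS.mpr ⟨h3, fun x => ?_⟩
  have : P.fib B' k x (sesCut (fun c : List Ω => ∃ q ∈ B', c.getLast? = some q) u) =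
      (P.fib B k x u).filter fun c => ∃ q ∈ B', c.getLast? = some q := Finsupp.ext fun c => by
    rw [P.ses_fib_val B' h3, Finsupp.filter_apply, P.ses_fib_val B h1, sesCut_apply]
    split_ifs <;> rfl
  rw [this]
  refine ⟨(Finsupp.mem_supported' ..).mpr fun c hc => ?_, LinearMap.mem_ker.mpr ?_⟩
  · rw [Finsupp.filter_apply]
    split_ifs with h
    · exact (Finsupp.mem_supported' ..).mp (h2 x).1 c fun h' =>
        hc ⟨(mem_Sx_sub hB).mpr ⟨h'.1, h⟩, h'.2⟩
    · rfl
  · rw [dF_filter B', LinearMap.mem_ker.mp (h2 x).2, Finsupp.filter_zero]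

omit [T2Space Ω] [TotallyDisconnectedSpace Ω] in
theorem PS.ses_retr_ZK (P : PS Ω) {B B' : Set Ω} (hB : B' ⊆ B) (k : ℕ) :
    Retr (P.ZK B' k) (P.ZK B k) := by
  classical
  refine ses_retr_sub (LF Ω (List Ω)) (fun u hu => P.ses_zS_mono hB k hu)
    (sesCut fun c : List Ω => ∃ q ∈ B', c.getLast? = some q) (fun a u => Linf.ext fun c => ?_)
    (fun u hu => P.ses_zS_cut hB k hu) fun u hu => Linf.ext fun c => ?_
  · rw [lpOp_apply, sesCut_apply, sesCut_apply, lpOp_apply]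
    split_ifs
    · rfl
    · rw [map_zero]
  · rw [sesCut_apply]
    split_ifs with h
    · rfl
    · exact ContinuousMap.ext fun x => ((mem_pmS.mp (P.mem_zS.mp hu).1).2 c x fun h' =>
        h ((mem_Sx_sub hB).mp h').2).symm

omit [T2Space Ω] [TotallyDisconnectedSpace Ω] in
theorem PS.retr_Zs (P : PS Ω) {B B' : Set Ω} (hB : B' ⊆ B) (k : ℕ) :
    Retr (P.Zs B' k) (P.Zs B k) := by
  cases k with
  | zero => exact ses_retr_C0 hB
  | succ k => exact P.ses_retr_ZK hB k

omit [CompactSpace Ω] [T2Space Ω] [TotallyDisconnectedSpace Ω] in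
theorem PS.ses_chain_lt (P : PS Ω) (B : Set Ω) : ∀ (h : Ω) (t : List Ω), IsCh P.le B (h :: t) →
    P.rk h + t.length < P.H
  | h, [], _ => P.rs.bd h
  | h, y :: t, hc => by
    have h1 := P.ses_chain_lt B y t hc.2
    have h2 := P.rk_lt hc.1.1 hc.1.2.symm
    rw [List.length_cons]
    omega

theorem PS.pj_Zs_of_H (P : PS Ω) (B : Set Ω) {k : ℕ} (hk : P.H ≤ k + 1) : Pj (P.Zs B k) := by
  obtain ⟨σ, hσ⟩ := P.ses_Zs B k
  obtain ⟨τ, hτ⟩ := P.ses_Zs B (k + 1)
  refine hσ.pj_of_retraction (PM.pj (P.cf B k)) 0 (fun a u => by simp) fun z => ?_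
  obtain ⟨-, s, -, hs, -⟩ := hτ.split
  have : s z = 0 := Subtype.ext (Linf.ext fun c => ContinuousMap.ext fun x =>
    (mem_pmS.mp (s z).2).2 c x fun ⟨h1, h2, h, t, e, _⟩ => by
      subst e
      have := P.ses_chain_lt B h t h1
      rw [List.length_cons] at h2
      omega)
  rw [← hs z, this, map_zero, map_zero, map_zero]

end Pool.Agent.MP_75da70_an.H8
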