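import Pool.Agent.MP_75da70_an.H8.PDefs
import Pool.Agent.MP_75da70_an.H31.Struct

/-
Moebius functionals of a neighbourhood assignment of bounded order.
-/

namespace Pool.Agent.MP_75da70_an.H8

open Filter Topology Set H7

variable {Ω : Type} [TopologicalSpace Ω] [CompactSpace Ω]

namespace PS

variable (P : PS Ω)

omit [CompactSpace Ω] in
theorem rk_lt {q y : Ω} (h : P.le q y) (hne : q ≠ y) : P.rk y < P.rk q := P.rs.lt q y h hne.symm

omit [CompactSpace Ω] in
theorem rk_le {q y : Ω} (h : P.le q y) : P.rk y ≤ P.rk q := by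
  by_cases hne : q = y
  · rw [hne]
  · exact (P.rk_lt h hne).le

omit [CompactSpace Ω] in
theorem card_below (y : Ω) : (P.finite_below y).toFinset.card ≤ P.N :=
  P.ord y _ fun _ hq => (P.finite_below y).mem_toFinset.mp hq

open Classical in
/-- the Moebius functional. -/
noncomputable def mob (y : Ω) : C(Ω, ℂ) →L[ℂ] ℂ :=
  ContinuousMap.evalCLM ℂ y - ∑ q ∈ ((P.finite_below y).toFinset.erase y).attach, mob q.1
termination_by P.H - P.rk y
decreasing_by
  have h := Finset.mem_erase.mp q.2
  have h1 := P.rk_lt (by simpa using h.2) h.1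
  have h2 := P.rs.bd q.1
  omega

omit [CompactSpace Ω] in
open Classical in
theorem mob_eq (y : Ω) : P.mob y =
    ContinuousMap.evalCLM ℂ y - ∑ q ∈ (P.finite_below y).toFinset.erase y, P.mob q := by
  rw [mob, Finset.sum_attach]

omit [CompactSpace Ω] in
theorem below_ind {C : Ω → Prop} (h : ∀ y, (∀ q, P.le q y → q ≠ y → C q) → C y) (y : Ω) : C y := by
  induction hn : P.H - P.rk y using Nat.strong_induction_on generalizing y with
  | _ n ih =>
    refine h y fun q hq hne => ih _ ?_ q rfl
    have h1 := P.rk_lt hq hne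
    have h2 := P.rs.bd q
    omega

omit [CompactSpace Ω] in
theorem sum_mob (x : Ω) (f : C(Ω, ℂ)) : ∑ y ∈ (P.finite_below x).toFinset, P.mob y f = f x := by
  classical
  rw [← Finset.add_sum_erase _ _ (a := x) (by simpa using P.pord.refl x), P.mob_eq x]
  simp

theorem norm_mob (y : Ω) : ‖P.mob y‖ ≤ ((P.N : ℝ) + 1) ^ (P.H - P.rk y) := by
  classical
  induction y using P.below_ind with
  | h y ih =>
    have hb := P.rs.bd y
    have h1 : ‖(ContinuousMap.evalCLM ℂ y : C(Ω, ℂ) →L[ℂ] ℂ)‖ ≤ 1 :=
      ContinuousLinearMap.opNorm_le_bound _ zero_le_one fun f => by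
        simpa using f.norm_coe_le_norm y
    have hN : (1 : ℝ) ≤ (P.N : ℝ) + 1 := by simp
    have h2 : ‖∑ q ∈ (P.finite_below y).toFinset.erase y, P.mob q‖ ≤
        P.N * ((P.N : ℝ) + 1) ^ (P.H - P.rk y - 1) := by
      refine (norm_sum_le _ _).trans ((Finset.sum_le_card_nsmul _ _
        (((P.N : ℝ) + 1) ^ (P.H - P.rk y - 1)) fun q hq => ?_).trans ?_)
      · have h := Finset.mem_erase.mp hq
        have hq' : P.le q y := by simpa using h.2
        have := P.rk_lt hq' h.1
        exact (ih q hq' h.1).trans (pow_le_pow_right₀ hN (by omega))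
      · rw [nsmul_eq_mul]
        gcongr
        exact (Finset.card_erase_le).trans (P.card_below y)
    rw [P.mob_eq, show P.H - P.rk y = P.H - P.rk y - 1 + 1 by omega, pow_succ]
    have := one_le_pow₀ (n := P.H - P.rk y - 1) hN
    refine (norm_sub_le _ _).trans ?_
    linarith

theorem mob_span (y : Ω) : P.mob y ∈ Submodule.span ℂ
    ((fun q => (ContinuousMap.evalCLM ℂ q : C(Ω, ℂ) →L[ℂ] ℂ)) '' {q | P.le q y}) := by
  classical
  induction y using P.below_ind with
  | h y ih =>
    rw [P.mob_eq]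
    refine Submodule.sub_mem _ (Submodule.subset_span ⟨y, P.pord.refl y, rfl⟩)
      (Submodule.sum_mem _ fun q hq => ?_)
    have h := Finset.mem_erase.mp hq
    have hq' : P.le q y := by simpa using h.2
    have hsub : {a | P.le a q} ⊆ {a | P.le a y} := fun a ha => P.pord.trans a q y ha hq'
    exact Submodule.span_mono (image_mono hsub) (ih q hq' h.1)

variable [T2Space Ω] [TotallyDisconnectedSpace Ω]

theorem mob_finite (f : C(Ω, ℂ)) (n : ℕ) : ∀ ε : ℝ, 0 < ε →
    {y | P.H - n ≤ P.rk y ∧ ε ≤ ‖P.mob y f‖}.Finite := by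
  classical
  induction n with
  | zero =>
    intro ε _
    refine finite_empty.subset fun y hy => ?_
    have := P.rs.bd y
    have := hy.1
    omega
  | succ n ih =>
    intro ε hε
    set η : ℝ := ε / (2 * (P.N + 1)) with hη
    have hη0 : 0 < η := by positivity
    have hNη : P.N * η < ε / 2 := by
      have : (P.N + 1) * η = ε / 2 := by rw [hη]; field_simp
      linarith
    set F := (ih η hη0).toFinset with hF
    set g : C(Ω, ℂ) := f - ∑ q ∈ F, P.mob q f • ind (P.V q) with hg
    have hgx : ∀ x, g x = ∑ q ∈ (P.finite_below x).toFinset \ F, P.mob q f := fun x => by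
      have h1 : (∑ q ∈ F, P.mob q f • ind (P.V q)) x =
          ∑ q ∈ (P.finite_below x).toFinset ∩ F, P.mob q f := by
        rw [ContinuousMap.sum_apply, Finset.inter_comm, ← Finset.filter_mem_eq_inter,
          Finset.sum_filter]
        refine Finset.sum_congr rfl fun q _ => ?_
        by_cases hq : x ∈ P.V q
        · simp [ind_of_mem (P.rs.clopen q) hq, PS.le, hq]
        · simp [ind_of_notMem hq, PS.le, hq]
      rw [hg, ContinuousMap.sub_apply, h1, ← P.sum_mob x f,
        ← Finset.sum_inter_add_sum_sdiff (P.finite_below x).toFinset F, add_sub_cancel_left]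
    have small : ∀ (x : Ω) (S : Finset Ω), S ⊆ (P.finite_below x).toFinset \ F →
        (∀ q ∈ S, P.H - n ≤ P.rk q) → ‖∑ q ∈ S, P.mob q f‖ < ε / 2 := fun x S hS hr => by
      refine lt_of_le_of_lt ((norm_sum_le _ _).trans ((Finset.sum_le_card_nsmul _ _ η
        fun q hq => ?_).trans ?_)) hNη
      · have := (Finset.mem_sdiff.mp (hS hq)).2
        simp only [hF, Finite.mem_toFinset, mem_ofPred_eq, not_and, not_le] at this
        exact (this (hr q hq)).le
      · rw [nsmul_eq_mul]
        gcongr
        exact (Finset.card_le_card (hS.trans Finset.sdiff_subset)).trans (P.card_below x)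
    have hfin : ({x | P.H - (n + 1) ≤ P.rk x} ∩ {x | ε / 2 ≤ ‖g x‖}).Finite := by
      refine P.rs.finite_level (j := P.H - (n + 1)) ((P.rs.struct_closed_ge _).inter
        (isClosed_le continuous_const g.continuous.norm)) fun x hx => ?_
      by_contra hne
      have h1 : P.H - (n + 1) ≤ P.rk x := hx.1
      have h2 : ε / 2 ≤ ‖g x‖ := hx.2
      rw [hgx] at h2
      refine absurd h2 (not_le.mpr (small x _ subset_rfl fun q hq => ?_))
      have := P.rk_le (q := q) (y := x) (by simpa using (Finset.mem_sdiff.mp hq).1)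
      omega
    refine ((ih ε hε).union hfin).subset fun x hx => ?_
    by_cases hr : P.H - n ≤ P.rk x
    · exact Or.inl ⟨hr, hx.2⟩
    refine Or.inr ⟨hx.1, ?_⟩
    have hxm : x ∈ (P.finite_below x).toFinset \ F := by
      simp only [hF, Finset.mem_sdiff, Finite.mem_toFinset, mem_ofPred_eq]
      exact ⟨P.pord.refl x, fun h => hr h.1⟩
    have h1 := small x _ (Finset.erase_subset x _) fun q hq => by
      have h := Finset.mem_erase.mp hq
      have := P.rk_lt (q := q) (y := x) (by simpa using (Finset.mem_sdiff.mp h.2).1) h.1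
      have := hx.1
      omega
    have h2 : P.mob x f = g x - ∑ q ∈ ((P.finite_below x).toFinset \ F).erase x, P.mob q f := by
      rw [hgx, ← Finset.add_sum_erase _ _ hxm, add_sub_cancel_right]
    have h3 := hx.2
    rw [h2] at h3
    have := norm_sub_le (g x) (∑ q ∈ ((P.finite_below x).toFinset \ F).erase x, P.mob q f)
    show ε / 2 ≤ ‖g x‖
    linarith

theorem exists_mob (P : PS Ω) : ∃ (μ : Ω → C(Ω, ℂ) →L[ℂ] ℂ) (m : Ω → Ω → ℂ) (C : ℝ),
    (∀ y, ‖μ y‖ ≤ C) ∧ (∀ y f, μ y f = ∑ q ∈ (P.finite_below y).toFinset, m y q * f q) ∧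
    (∀ x f, ∑ y ∈ (P.finite_below x).toFinset, μ y f = f x) ∧
    ∀ f, Tendsto (fun y => μ y f) cofinite (𝓝 0) := by
  have h : ∀ y, ∃ m : Ω → ℂ, ∀ f, P.mob y f = ∑ q ∈ (P.finite_below y).toFinset, m q * f q := by
    intro y
    have := P.mob_span y
    rw [← (P.finite_below y).coe_toFinset, Submodule.mem_span_image_finset_iff_exists_fun'] at this
    obtain ⟨m, hm⟩ := this
    exact ⟨m, fun f => by rw [← hm]; simp⟩
  choose m hm using h
  refine ⟨P.mob, m, ((P.N : ℝ) + 1) ^ P.H, fun y => (P.norm_mob y).trans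
    (pow_le_pow_right₀ (by simp) (by omega)), hm, P.sum_mob, fun f => ?_⟩
  rw [Metric.tendsto_nhds]
  intro ε hε
  refine (P.mob_finite f P.H ε hε).subset fun y hy => ⟨by simp, ?_⟩
  simpa using hy

end PS

end Pool.Agent.MP_75da70_an.H8
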